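import Mathlib
import Pool.Agent.Helper760.OracleSim4

set_option autoImplicit false

namespace Pool.Agent.Results.MP_d04dff_lc.OracleSimulation

open Pool.Agent.Helper760.OracleC

/-- Every infinite binary sequence is simulated with logarithmic precision by finite conditions
`x n`, whose length is `(2 n + 4) 2 ^ (n + 2)`. The first two clauses say that the optimal
decompressors quantified over exist. -/
theorem result :
    (∃ D : List Bool → List Bool →. List Bool, OptimalCond D) ∧
    (∀ X : ℕ → Bool, ∃ V : List Bool →. List Bool, OptimalIn X V) ∧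
    ∀ (X : ℕ → Bool) (D : List Bool → List Bool →. List Bool), OptimalCond D →
    ∀ V : List Bool →. List Bool, OptimalIn X V →
      ∃ (x : ℕ → List Bool) (c : ℝ),
        (∀ n : ℕ, (x n).length = (2 * n + 4) * 2 ^ (n + 2)) ∧
        ∀ n : ℕ, 1 ≤ n → ∀ s : List Bool, s.length ≤ n →
          |(condC D s (x n) : ℝ) - (oracleC V s : ℝ)| ≤ c * Real.log n + c := by
  refine ⟨exists_optimalCond, exists_optimalIn, ?_⟩
  intro X D hD V hV
  obtain ⟨x, c, hx, hc⟩ := simulate X D hD V hV
  refine ⟨x, (c : ℝ) + 6, hx, ?_⟩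
  intro n hn s hs
  obtain ⟨h1, h2⟩ := hc n s hs
  have h1' : (condC D s (x n) : ℝ) ≤ oracleC V s + 2 * Nat.size n + c := by exact_mod_cast h1
  have h2' : (oracleC V s : ℝ) ≤ condC D s (x n) + 2 * Nat.size n + c := by exact_mod_cast h2
  have hc0 : (0 : ℝ) ≤ c := Nat.cast_nonneg c
  have hlog : 0 ≤ Real.log n := Real.log_nonneg (by exact_mod_cast hn)
  have h3 : (Nat.size n : ℝ) ≤ 3 * Real.log n + 1 := by
    rcases Nat.lt_or_ge n 2 with h | h
    · have : n = 1 := by omega
      subst this
      simp [Nat.size_one]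
    · have := size_le_log n h
      linarith
  have h4 : 2 * (Nat.size n : ℝ) + c ≤ ((c : ℝ) + 6) * Real.log n + (c + 6) := by
    have : 0 ≤ (c : ℝ) * Real.log n := mul_nonneg hc0 hlog
    nlinarith
  rw [abs_le]
  constructor <;> linarith

end Pool.Agent.Results.MP_d04dff_lc.OracleSimulation
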